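import Pool.Agent.H354.BG.Stm

set_option autoImplicit false

/-! Project BG: the shapes of codes are decidable. -/

namespace Pool.Agent.H167.BG.SHC

open Pool.Agent.H482R3.EA (W inv ev PP xx evF cond1 cond2 Syl gOf Sys St Near InD Adm Act)
open Pool.Agent.H482R3.EB (tot wp alt rels AR gR TR Tame Symm alt_length)
open Pool.Agent.H354.BG

section gen

variable {α β : Type} [Primcodable α] [Primcodable β]

theorem cp_comp {p : β → Prop} (hp : ComputablePred p) {f : α → β} (hf : Computable f) :
    ComputablePred (fun x => p (f x)) := by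
  obtain ⟨d, h⟩ := hp
  exact ⟨fun x => d (f x), h.comp hf⟩

theorem cp_const (q : Prop) : ComputablePred (fun _ : α => q) := by
  classical
  exact ⟨fun _ => Classical.propDecidable q, Computable.const _⟩

theorem cp_finite [Finite β] (p : β → Prop) : ComputablePred p := by
  classical
  exact ⟨fun x => Classical.propDecidable (p x), (Primrec.dom_finite _).to_comp⟩

theorem cp_and {p q : α → Prop} (hp : ComputablePred p) (hq : ComputablePred q) :
    ComputablePred (fun x => p x ∧ q x) :=
  (Pool.Agent.H482R3.EB.Asm.cp α inferInstance 0).1 p q hp hq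

theorem cp_or {p q : α → Prop} (hp : ComputablePred p) (hq : ComputablePred q) :
    ComputablePred (fun x => p x ∨ q x) :=
  (Pool.Agent.H482R3.EB.Asm.cp α inferInstance 0).2.1 p q hp hq

theorem cp_ex {n : ℕ} {p : Fin n → α → Prop} (hp : ∀ i, ComputablePred (p i)) :
    ComputablePred (fun x => ∃ i, p i x) :=
  (Pool.Agent.H482R3.EB.Asm.cp α inferInstance n).2.2.2 p hp

theorem cp_len (n : ℕ) : ComputablePred (fun l : List α => l.length = n) := by
  have h : PrimrecPred (fun l : List α => l.length = n) :=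
    Primrec.eq.comp Primrec.list_length (Primrec.const n)
  exact h.computablePred

end gen

/-- the type of the keys of the syllables -/
abbrev Ky (n : ℕ) : Type := Option (Fin n ⊕ (Unit ⊕ (Fin n × Fin n)))

/-- the key of a syllable -/
def ky {n : ℕ} : Option (Syl (Fin n) (Fin n)) → Ky n
  | none => none
  | some (.inl (_, v, _, _)) => some (.inl v)
  | some (.inr (.inl _)) => some (.inr (.inl ()))
  | some (.inr (.inr (_, v, w, _))) => some (.inr (.inr (v, w)))

/-- the word of a cross line syllable -/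
def yO {n : ℕ} : Option (Syl (Fin n) (Fin n)) → W ℕ
  | none => []
  | some (.inl _) => []
  | some (.inr (.inl _)) => []
  | some (.inr (.inr (_, _, _, y))) => y

theorem c_ky (n : ℕ) : Computable (ky : Option (Syl (Fin n) (Fin n)) → Ky n) := by
  have h : Computable (fun s : Option (Syl (Fin n) (Fin n)) =>
      (Option.casesOn s none (fun x => (Sum.casesOn x (fun y => some (.inl y.2.1))
        (fun z => (Sum.casesOn z (fun _ => some (.inr (.inl ())))
          (fun y => some (.inr (.inr (y.2.1, y.2.2.1)))) : Ky n)) : Ky n)) : Ky n)) := by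
    refine Computable.option_casesOn Computable.id (Computable.const none) ?_
    refine Computable.sumCasesOn (f := fun q : Option (Syl (Fin n) (Fin n)) ×
      Syl (Fin n) (Fin n) => q.2) Computable.snd ?_ ?_
    · exact Computable.option_some.comp (Computable.sumInl.comp
        (Computable.fst.comp (Computable.snd.comp Computable.snd)))
    · refine Computable.sumCasesOn (f := fun q : (Option (Syl (Fin n) (Fin n)) ×
        Syl (Fin n) (Fin n)) × ((W (Fin n) × W (Fin n)) ⊕ (W (Fin n) × Fin n × Fin n × W ℕ)) =>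
        q.2) Computable.snd ?_ ?_
      · exact Computable.const _
      · exact Computable.option_some.comp (Computable.sumInr.comp (Computable.sumInr.comp
          ((Computable.fst.comp (Computable.snd.comp Computable.snd)).pair
            (Computable.fst.comp (Computable.snd.comp (Computable.snd.comp Computable.snd))))))
  refine h.of_eq fun s => ?_
  rcases s with _ | (⟨g', v', x⟩ | (⟨g', y⟩ | ⟨g', v', w', y⟩)) <;> rfl

theorem c_yO (n : ℕ) : Computable (yO : Option (Syl (Fin n) (Fin n)) → W ℕ) := by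
  have h : Computable (fun s : Option (Syl (Fin n) (Fin n)) =>
      (Option.casesOn s [] (fun x => (Sum.casesOn x (fun _ => [])
        (fun z => (Sum.casesOn z (fun _ => []) (fun y => y.2.2.2) : W ℕ)) : W ℕ)) : W ℕ)) := by
    refine Computable.option_casesOn Computable.id (Computable.const []) ?_
    refine Computable.sumCasesOn (f := fun q : Option (Syl (Fin n) (Fin n)) ×
      Syl (Fin n) (Fin n) => q.2) Computable.snd ?_ ?_
    · exact Computable.const _
    · refine Computable.sumCasesOn (f := fun q : (Option (Syl (Fin n) (Fin n)) ×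
        Syl (Fin n) (Fin n)) × ((W (Fin n) × W (Fin n)) ⊕ (W (Fin n) × Fin n × Fin n × W ℕ)) =>
        q.2) Computable.snd ?_ ?_
      · exact Computable.const _
      · exact Computable.snd.comp (Computable.snd.comp (Computable.snd.comp Computable.snd))
  refine h.of_eq fun s => ?_
  rcases s with _ | (⟨g', v', x⟩ | (⟨g', y⟩ | ⟨g', v', w', y⟩)) <;> rfl

theorem c_gOf (a b : ℕ) : Computable (gOf : Option (Syl (Fin a) (Fin b)) → W (Fin b)) := by
  have h : Computable (fun s : Option (Syl (Fin a) (Fin b)) =>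
      (Option.casesOn s [] (fun x => (Sum.casesOn x (fun y => y.1)
        (fun z => (Sum.casesOn z (fun y => y.1) (fun y => y.1) : W (Fin b))) : W (Fin b))) :
        W (Fin b))) := by
    refine Computable.option_casesOn Computable.id (Computable.const []) ?_
    refine Computable.sumCasesOn (f := fun q : Option (Syl (Fin a) (Fin b)) ×
      Syl (Fin a) (Fin b) => q.2) Computable.snd ?_ ?_
    · exact (Computable.fst.comp Computable.snd : Computable fun q : (Option (Syl (Fin a) (Fin b)) ×
        Syl (Fin a) (Fin b)) × (W (Fin b) × Fin a × Bool × ℕ) => q.2.1)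
    · refine Computable.sumCasesOn (f := fun q : (Option (Syl (Fin a) (Fin b)) ×
        Syl (Fin a) (Fin b)) × ((W (Fin b) × W (Fin a)) ⊕ (W (Fin b) × Fin a × Fin b × W ℕ)) =>
        q.2) Computable.snd ?_ ?_
      · exact (Computable.fst.comp Computable.snd)
      · exact (Computable.fst.comp Computable.snd)
  refine h.of_eq fun s => ?_
  rcases s with _ | (⟨g', v', x⟩ | (⟨g', y⟩ | ⟨g', v', w', y⟩)) <;> rfl

theorem tot_count {S : Type} (u : W S) : tot u =
    ((u.countP (fun a => a.2 = true) : ℕ) : ℤ) - ((u.countP (fun a => a.2 = false) : ℕ) : ℤ) := by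
  induction u with
  | nil => simp [tot]
  | cons a u ih =>
    have h1 : tot (a :: u) = (if a.2 then (1 : ℤ) else -1) + tot u := by
      simp [tot]
    rw [h1, ih]
    rcases a with ⟨s, _ | _⟩
    · simp
      ring
    · simp
      ring

/-- the condition `okS` in terms of the key -/
def okK (D : Dat) (U : Finset (Fin D.r)) (b : Fin D.r) : Ky D.n → Prop
  | none => True
  | some (.inl v) => D.β v = b
  | some (.inr (.inl _)) => True
  | some (.inr (.inr (v, w))) => okL D U b v w

theorem okS_iff (D : Dat) (U : Finset (Fin D.r)) (b : Fin D.r) (a : Sy D) :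
    okS D U b a ↔ okK D U b (ky (some a)) := by
  rcases a with ⟨g', v', x⟩ | (⟨g', y⟩ | ⟨g', v', w', y⟩) <;> exact Iff.rfl

theorem ky_inl {n : ℕ} {a : Syl (Fin n) (Fin n)} {v : Fin n} :
    ky (some a) = some (.inl v) ↔ ∃ g s k, a = .inl (g, v, s, k) := by
  constructor
  · intro h
    rcases a with ⟨g', v', s, k⟩ | (⟨g', y⟩ | ⟨g', v', w', y⟩)
    · have h1 : v' = v := by
        have h2 : (some (Sum.inl v') : Ky n) = some (.inl v) := h
        simpa using h2
      subst h1
      exact ⟨g', s, k, rfl⟩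
    · exact absurd h (by simp [ky])
    · exact absurd h (by simp [ky])
  · rintro ⟨g, s, k, rfl⟩
    rfl

theorem ky_inr {n : ℕ} {a : Syl (Fin n) (Fin n)} {v w : Fin n} :
    ky (some a) = some (.inr (.inr (v, w))) ↔ ∃ g y, a = .inr (.inr (g, v, w, y)) := by
  constructor
  · intro h
    rcases a with ⟨g', v', s, k⟩ | (⟨g', y⟩ | ⟨g', v', w', y⟩)
    · exact absurd h (by simp [ky])
    · exact absurd h (by simp [ky])
    · have h2 : (some (Sum.inr (Sum.inr (v', w'))) : Ky n) = some (.inr (.inr (v, w))) := h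
      have h3 : v' = v ∧ w' = w := by simpa using h2
      obtain ⟨rfl, rfl⟩ := h3
      exact ⟨g', y, rfl⟩
  · rintro ⟨g, y, rfl⟩
    rfl

theorem sh1_iff (D : Dat) (v : Fin D.n) (l : List (Sy D)) :
    Sh1 D v l ↔ l.length = 0 ∨ (l.length = 1 ∧ ky l[0]? = some (.inl v)) := by
  unfold Sh1
  rcases l with _ | ⟨a, _ | ⟨a', l⟩⟩
  · simp
  · rw [show ([a] : List (Sy D))[0]? = some a from rfl, ky_inl]
    simp
  · simp

theorem c_get (D : Dat) (i : ℕ) : Computable (fun p : List (Sy D) × Fin D.n => p.1[i]?) :=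
  (Primrec.list_getElem?.comp Primrec.fst (Primrec.const i)).to_comp

theorem c_sh1 (D : Dat) : ComputablePred (fun p : List (Sy D) × Fin D.n => Sh1 D p.2 p.1) := by
  have h0 : ComputablePred (fun p : List (Sy D) × Fin D.n => p.1.length = 0) :=
    cp_comp (cp_len 0) Computable.fst
  have h1 : ComputablePred (fun p : List (Sy D) × Fin D.n => p.1.length = 1) :=
    cp_comp (cp_len 1) Computable.fst
  have h2 : ComputablePred (fun p : List (Sy D) × Fin D.n => ky p.1[0]? = some (.inl p.2)) :=
    cp_comp (p := fun q : Ky D.n × Fin D.n => q.1 = some (.inl q.2)) (cp_finite _)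
      (((c_ky D.n).comp (c_get D 0)).pair Computable.snd)
  exact (cp_or h0 (cp_and h1 h2)).of_eq fun p => (sh1_iff D p.2 p.1).symm

/-- the last shape -/
def Sh3 (D : Dat) (U : Finset (Fin D.r)) (b : Fin D.r) (v w : Fin D.n)
    (p : List (Sy D) × Fin D.n) : Prop :=
  (p.1.length = 1 ∧ (ky p.1[0]? = some (.inr (.inr (v, w))) ∧ p.2 = v)) ∧
    ((okL D U b v w ∧ onL D U b w (gOf p.1[0]?) []) ∧
      ¬ cond2 (kk D v w) (- eg D (D.β w) (gEl D (gOf p.1[0]?))) (yO p.1[0]?))

theorem c_sh3 (hs : S_SAMEC) (hbas : S_BASX) (D : Dat) (U : Finset (Fin D.r)) (b : Fin D.r)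
    (hb : b ∉ U) (hU : WPU D U) (v w : Fin D.n) : ComputablePred (Sh3 D U b v w) := by
  by_cases hok : okL D U b v w
  · have hg : Computable (fun p : List (Sy D) × Fin D.n => gOf p.1[0]?) :=
      (c_gOf D.n D.n).comp (c_get D 0)
    have hy : Computable (fun p : List (Sy D) × Fin D.n => yO p.1[0]?) :=
      (c_yO D.n).comp (c_get D 0)
    have h1 : ComputablePred (fun p : List (Sy D) × Fin D.n => p.1.length = 1) :=
      cp_comp (cp_len 1) Computable.fst
    have h2 : ComputablePred (fun p : List (Sy D) × Fin D.n =>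
        ky p.1[0]? = some (.inr (.inr (v, w))) ∧ p.2 = v) :=
      cp_comp (p := fun q : Ky D.n × Fin D.n => q.1 = some (.inr (.inr (v, w))) ∧ q.2 = v)
        (cp_finite _) (((c_ky D.n).comp (c_get D 0)).pair Computable.snd)
    have h3 : ComputablePred (fun p : List (Sy D) × Fin D.n =>
        okL D U b v w ∧ onL D U b w (gOf p.1[0]?) []) :=
      cp_comp (f := fun p : List (Sy D) × Fin D.n => ((v, w), (gOf p.1[0]?, ([] : W (Fin D.n)))))
        (hs D U b hb hU).2.2 ((Computable.const (v, w)).pair (hg.pair (Computable.const [])))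
    have hk := (kk_spec D hok).1
    have hc := (hbas D).2.2.2.2.2.2 (D.β w)
    have hcg := hc.comp hg
    have h4 : ComputablePred (fun p : List (Sy D) × Fin D.n =>
        cond2 (kk D v w) (- eg D (D.β w) (gEl D (gOf p.1[0]?))) (yO p.1[0]?)) := by
      have h5 := cp_comp (Pool.Agent.H482R3.EB.Asm.c2 _ hk)
        (((Computable.snd.comp hcg).pair (Computable.fst.comp hcg)).pair hy)
      refine h5.of_eq fun p => ?_
      have e : - eg D (D.β w) (gEl D (gOf p.1[0]?)) =
          (((flt D {D.β w} (gOf p.1[0]?)).countP (fun a => a.2 = false) : ℕ) : ℤ) -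
          (((flt D {D.β w} (gOf p.1[0]?)).countP (fun a => a.2 = true) : ℕ) : ℤ) := by
        rw [eg_gEl, tot_count]
        ring
      rw [e]
    exact cp_and (cp_and h1 h2) (cp_and h3 h4.not)
  · refine (cp_const (α := List (Sy D) × Fin D.n) False).of_eq fun p => ?_
    constructor
    · exact False.elim
    · rintro ⟨-, ⟨h, -⟩, -⟩
      exact hok h

theorem sh2_iff (D : Dat) (U : Finset (Fin D.r)) (b : Fin D.r) (v : Fin D.n) (l : List (Sy D)) :
    ((∀ a ∈ l, okS D U b a) ∧ Sh2 D U b v l) ↔
    (l.length = 0 ∨ (l.length = 1 ∧ (okK D U b (ky l[0]?) ∧ ky l[0]? = some (.inl v)))) ∨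
    ((l.length = 2 ∧ ((okK D U b (ky l[0]?) ∧ okK D U b (ky l[1]?)) ∧
      (ky l[0]? = some (.inl v) ∧ ky l[1]? = some (.inl v)))) ∧ sameP D U b (gOf l[0]?) []) ∨
    ∃ v' w', Sh3 D U b v' w' (l, v) := by
  unfold Sh2
  rw [sh1_iff]
  rcases l with _ | ⟨a, _ | ⟨a', _ | ⟨a'', l⟩⟩⟩
  · simp
  · rw [show ([a] : List (Sy D))[0]? = some a from rfl]
    have e1 : (∀ x ∈ ([a] : List (Sy D)), okS D U b x) ↔ okK D U b (ky (some a)) := by
      rw [← okS_iff]
      simp
    rw [e1]
    constructor
    · rintro ⟨hok, (h | ⟨-, h⟩) | ⟨g, s, n, g', s', n', h, -⟩ | ⟨g, w, y, h, h1, h2⟩⟩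
      · exact absurd h (by simp)
      · exact Or.inl (Or.inr ⟨rfl, hok, h⟩)
      · exact absurd h (by simp)
      · have h3 : a = .inr (.inr (g, v, w, y)) := by simpa using h
        subst h3
        refine Or.inr (Or.inr ⟨v, w, ⟨rfl, rfl, rfl⟩, ⟨hok, h1⟩, h2⟩)
    · rintro ((h | ⟨-, hok, h⟩) | ⟨⟨h, -⟩, -⟩ | ⟨v', w', ⟨-, h1, h2⟩, ⟨h3, h4⟩, h5⟩)
      · exact absurd h (by simp)
      · exact ⟨hok, Or.inl (Or.inr ⟨rfl, h⟩)⟩
      · exact absurd h (by simp)
      · have h2' : v = v' := h2
        subst h2'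
        obtain ⟨g, y, rfl⟩ := ky_inr.1 h1
        exact ⟨h3, Or.inr (Or.inr ⟨g, w', y, rfl, h4, h5⟩)⟩
  · rw [show ([a, a'] : List (Sy D))[0]? = some a from rfl,
      show ([a, a'] : List (Sy D))[1]? = some a' from rfl]
    have e1 : (∀ x ∈ ([a, a'] : List (Sy D)), okS D U b x) ↔
        okK D U b (ky (some a)) ∧ okK D U b (ky (some a')) := by
      rw [← okS_iff, ← okS_iff]
      simp
    rw [e1]
    constructor
    · rintro ⟨hok, (h | ⟨h, -⟩) | ⟨g, s, n, g', s', n', h, h1⟩ | ⟨g, w, y, h, h1, h2⟩⟩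
      · exact absurd h (by simp)
      · exact absurd h (by simp)
      · have h3 : a = .inl (g, v, s, n) ∧ a' = .inl (g', v, s', n') := by simpa using h
        obtain ⟨rfl, rfl⟩ := h3
        exact Or.inr (Or.inl ⟨⟨rfl, hok, rfl, rfl⟩, h1⟩)
      · exact absurd h (by simp)
    · rintro ((h | ⟨h, -⟩) | ⟨⟨-, hok, h1, h2⟩, h3⟩ | ⟨v', w', ⟨h, -⟩, -⟩)
      · exact absurd h (by simp)
      · exact absurd h (by simp)
      · obtain ⟨g, s, n, rfl⟩ := ky_inl.1 h1
        obtain ⟨g', s', n', rfl⟩ := ky_inl.1 h2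
        exact ⟨hok, Or.inr (Or.inl ⟨g, s, n, g', s', n', rfl, h3⟩)⟩
      · exact absurd h (by simp)
  · constructor
    · rintro ⟨-, (h | ⟨h, -⟩) | ⟨g, s, n, g', s', n', h, -⟩ | ⟨g, w, y, h, -⟩⟩
      · exact absurd h (by simp)
      · exact absurd h (by simp)
      · exact absurd h (by simp)
      · exact absurd h (by simp)
    · rintro ((h | ⟨h, -⟩) | ⟨⟨h, -⟩, -⟩ | ⟨v', w', ⟨h, -⟩, -⟩)
      · exact absurd h (by simp)
      · exact absurd h (by simp)
      · exact absurd h (by simp)
      · exact absurd h (by simp)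

theorem t_SHC (hs : S_SAMEC) (hbas : S_BASX) : S_SHC := by
  intro D U b hb hU
  refine ⟨c_sh1 D, ?_⟩
  have h0 : ComputablePred (fun p : List (Sy D) × Fin D.n => p.1.length = 0) :=
    cp_comp (cp_len 0) Computable.fst
  have h1 : ComputablePred (fun p : List (Sy D) × Fin D.n => p.1.length = 1) :=
    cp_comp (cp_len 1) Computable.fst
  have h2 : ComputablePred (fun p : List (Sy D) × Fin D.n => p.1.length = 2) :=
    cp_comp (cp_len 2) Computable.fst
  have h3 : ComputablePred (fun p : List (Sy D) × Fin D.n =>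
      okK D U b (ky p.1[0]?) ∧ ky p.1[0]? = some (.inl p.2)) :=
    cp_comp (p := fun q : Ky D.n × Fin D.n => okK D U b q.1 ∧ q.1 = some (.inl q.2))
      (cp_finite _) (((c_ky D.n).comp (c_get D 0)).pair Computable.snd)
  have h4 : ComputablePred (fun p : List (Sy D) × Fin D.n =>
      (okK D U b (ky p.1[0]?) ∧ okK D U b (ky p.1[1]?)) ∧
      (ky p.1[0]? = some (.inl p.2) ∧ ky p.1[1]? = some (.inl p.2))) :=
    cp_comp (p := fun q : (Ky D.n × Ky D.n) × Fin D.n => (okK D U b q.1.1 ∧ okK D U b q.1.2) ∧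
      (q.1.1 = some (.inl q.2) ∧ q.1.2 = some (.inl q.2)))
      (cp_finite _) ((((c_ky D.n).comp (c_get D 0)).pair ((c_ky D.n).comp (c_get D 1))).pair
        Computable.snd)
  have h5 : ComputablePred (fun p : List (Sy D) × Fin D.n => sameP D U b (gOf p.1[0]?) []) :=
    cp_comp (f := fun p : List (Sy D) × Fin D.n => (gOf p.1[0]?, ([] : W (Fin D.n))))
      (hs D U b hb hU).1 (((c_gOf D.n D.n).comp (c_get D 0)).pair (Computable.const []))
  have h6 : ComputablePred (fun p : List (Sy D) × Fin D.n => ∃ v' w', Sh3 D U b v' w' p) :=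
    cp_ex fun v' => cp_ex fun w' => c_sh3 hs hbas D U b hb hU v' w'
  exact (cp_or (cp_or h0 (cp_and h1 h3)) (cp_or (cp_and (cp_and h2 h4) h5) h6)).of_eq fun p =>
    (sh2_iff D U b p.2 p.1).symm

end Pool.Agent.H167.BG.SHC
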